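import Pool.Agent.Helper39.HD.Nec

/-!
# A necessary condition for Hamilton decompositions of abelian Cayley graphs
-/

namespace Pool.Agent.Results.MP_c90cf1_co.ArboricityNecessary

open Pool.Agent.Helper39.HD

/-- If the Cayley graph `G(Γ,S)` of an abelian group, `S` finite with `S ∩ -S = ∅`, has a
decomposition into spanning double rays, then for every `P ⊆ S` the Cayley graph of the group
generated by `P` with respect to `P` decomposes into `|S|` linear forests. -/
theorem result {Γ : Type*} [AddCommGroup Γ] (S : Set Γ) (hfin : S.Finite)
    (hS : ∀ s ∈ S, -s ∉ S) (P : Set Γ) (hP : P ⊆ S)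
    (h : HasHamiltonDecomposition (SimpleGraph.circulantGraph S)) :
    LinearForestDecomposable
      (SimpleGraph.circulantGraph ((fun x : AddSubgroup.closure P => (x : Γ)) ⁻¹' P)) S.ncard :=
  necessary S hfin hS P hP h

end Pool.Agent.Results.MP_c90cf1_co.ArboricityNecessary
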