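import Pool.Agent.CA.Main

/-!
# Hamilton decompositions of all one-ended abelian Cayley graphs
-/

namespace Pool.Agent.Results.MP_c90cf1_co.FullAnswer

open Pool.Agent.Helper39.HD

/-- Let `Γ ≅ ℤⁿ × T` with `n ≥ 2` and `T` finite (the infinite finitely generated one-ended abelian
groups), and let `S` be any finite generating set of `Γ` with `S ∩ -S = ∅` (so `0 ∉ S`). Then the
Cayley graph `G(Γ,S)` has a Hamilton decomposition: its edge set can be partitioned into spanning
double rays. -/
theorem result (Γ : Type) [AddCommGroup Γ] (n : ℕ) (hn : 2 ≤ n) (T : Type) [AddCommGroup T]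
    [Finite T] (e : Γ ≃+ (Fin n → ℤ) × T) (S : Set Γ) (hfin : S.Finite)
    (hS : ∀ s ∈ S, -s ∉ S) (hgen : AddSubgroup.closure S = ⊤) :
    HasHamiltonDecomposition (SimpleGraph.circulantGraph S) :=
  Pool.Agent.CA.hamilton hn e S hfin hS hgen

end Pool.Agent.Results.MP_c90cf1_co.FullAnswer
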